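import Pool.Agent.N922.PY.Stm
import Pool.Agent.N42.PQ.Fin

set_option autoImplicit false
set_option linter.all false

/-! # Project PY (helper922), leaf FINAL (helper459): the assembly in terms of the coefficients

The proof follows helper42's file `Pool/Agent/N42/PQ/Fin.lean`. -/

open Polynomial
open scoped Classical

namespace Pool.Agent.N459.PY

open Pool.Agent.N783.PQ (pol fol Cg GoodF GoodS Fam Ht SelZero ov)
open Pool.Agent.N922.PY
open Pool.Agent.N42.PQ (image_eq pol_inj)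

theorem final (h1 : S_MAIN4) (h2 : S_GLO) : S_FINAL := by
  obtain ⟨c, hc, B₀, hB⟩ := h1
  refine ⟨c, hc, B₀, fun B hBB => ?_⟩
  obtain ⟨hf, hle⟩ := hB B hBB
  have e1 : pol '' {a : Fin (2 * 2) → ℤ | ∀ i, |a i| ≤ (B : ℤ) ^ (5 - (i : ℕ))} =
      {f : ℤ[X] | Ht 2 B f} := by
    have h := image_eq (g := 2) B (fun _ => True)
    simp only [and_true] at h
    exact h
  have hfin : {a : Fin (2 * 2) → ℤ | ∀ i, |a i| ≤ (B : ℤ) ^ (5 - (i : ℕ))}.Finite := by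
    refine Set.Finite.of_finite_image ?_ (pol_inj.injOn)
    rw [e1]
    exact hf
  refine ⟨hfin, ?_⟩
  rw [← e1, Set.ncard_image_of_injective _ pol_inj] at hle
  refine hle.trans ?_
  have e2 : pol '' {a : Fin (2 * 2) → ℤ | (∀ i, |a i| ≤ (B : ℤ) ^ (5 - (i : ℕ))) ∧
      (Irreducible (ov ℚ (pol a)) ∧ SelZero (pol a) ∧ Cg 4 (pol a) f0)} =
      {f : ℤ[X] | Ht 2 B f ∧ Irreducible (ov ℚ f) ∧ SelZero f ∧ Cg 4 f f0} :=
    image_eq (g := 2) B (fun f => Irreducible (ov ℚ f) ∧ SelZero f ∧ Cg 4 f f0)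
  rw [← e2, Set.ncard_image_of_injective _ pol_inj]
  have h3 : {a : Fin (2 * 2) → ℤ | (∀ i, |a i| ≤ (B : ℤ) ^ (5 - (i : ℕ))) ∧
      (Irreducible (ov ℚ (pol a)) ∧ SelZero (pol a) ∧ Cg 4 (pol a) f0)} ⊆
      {a : Fin (2 * 2) → ℤ | (∀ i, |a i| ≤ (B : ℤ) ^ (5 - (i : ℕ))) ∧
      Irreducible (fol a ℚ) ∧ SelZero (pol a) ∧
      ∀ x y : ℚ, y ^ 2 ≠ (fol a ℚ).eval x} := by
    rintro a ⟨h4, h5, h6, h7⟩
    exact ⟨h4, h5, h6, h2 a h5 h6 h7⟩
  have h4 := Set.ncard_le_ncard h3 (hfin.subset fun a ha => ha.1)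
  exact_mod_cast h4

end Pool.Agent.N459.PY
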